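import Pool.Agent.H917R3.Triang

/-!
# Charts of triangulations at bounded flip distance
-/

namespace Pool.Agent.Y435.TC

open Pool.Agent.H917R3.XC

/-- The pairs (ideal triangulation, seed) obtained from `(Δ₀, s₀)` by at most `n` flips. A flip at a
flippable edge replaces the triangulation by the flipped one, and mutates the seed at the four nodes
`Δ.flipNodes h`: the two nodes on the edge and the two nodes inside the adjacent triangles. -/
inductive FlipChart {H V : Type} [DecidableEq H] [DecidableEq V] {K : Type} [Field K]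
    (Δ₀ : Tri H V) (s₀ : Seed V K) : ℕ → Tri H V → Seed V K → Prop
  | base (n : ℕ) : FlipChart Δ₀ s₀ n Δ₀ s₀
  | flip (n : ℕ) (Δ : Tri H V) (s : Seed V K) (h : H) : FlipChart Δ₀ s₀ n Δ s → Δ.Flippable h →
      FlipChart Δ₀ s₀ (n + 1) (Δ.flip h) ((Δ.flipNodes h).foldl Seed.mutate s)

end Pool.Agent.Y435.TC
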