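import Pool.Agent.Y435.TC.Frozen
import Pool.Agent.Y435.TC.FlipChart

/-!
# Charts of triangulations at bounded flip distance
-/

set_option linter.unusedSectionVars false

namespace Pool.Agent.Y435.TC

open Pool.Agent.H917R3.XC

section

variable {H V : Type} [DecidableEq H] [Fintype V] [DecidableEq V] {K : Type} [Field K] [Algebra ℂ K]

theorem FlipChart.triChart {Δ₀ Δ : Tri H V} {s₀ s : Seed V K} {n : ℕ}
    (h : FlipChart Δ₀ s₀ n Δ s) : TriChart Δ₀ s₀ Δ s := by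
  induction h with
  | base _ => exact TriChart.base
  | flip n Δ s h _ hf ih => exact TriChart.flip _ _ _ ih hf

theorem FlipChart.mono {Δ₀ Δ : Tri H V} {s₀ s : Seed V K} {n m : ℕ}
    (h : FlipChart Δ₀ s₀ n Δ s) (hnm : n ≤ m) : FlipChart Δ₀ s₀ m Δ s := by
  induction h generalizing m with
  | base _ => exact FlipChart.base _
  | flip n Δ s h _ hf ih =>
    obtain ⟨m', rfl⟩ : ∃ m', m = m' + 1 := ⟨m - 1, by omega⟩
    exact FlipChart.flip _ _ _ _ (ih (by omega)) hf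

/-- the flip of a pair -/
def fl (p : Tri H V × Seed V K) (h : H) : Tri H V × Seed V K :=
  (p.1.flip h, (p.1.flipNodes h).foldl Seed.mutate p.2)

theorem FlipChart.fl {p₀ p : Tri H V × Seed V K} {n : ℕ}
    (h : FlipChart p₀.1 p₀.2 n p.1 p.2) {x : H} (hf : p.1.Flippable x) :
    FlipChart p₀.1 p₀.2 (n + 1) (fl p x).1 (fl p x).2 := FlipChart.flip _ _ _ _ h hf

theorem fl_good {p : Tri H V × Seed V K} (hp : p.2.Good) (x : H) : (fl p x).2.Good := hp.foldl _

/-- All nodes of a flip are visible. -/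
theorem vis {p : Tri H V × Seed V K} (hΔ : p.1.IsIdeal) (hs : p.2.Good) {f : K} {h : H}
    (h0 : p.2.Regular f) (h1 : (fl p h).2.Regular f) (k : V) (hk : k ∈ p.1.flipNodes h) :
    (p.2.mutate k).Regular f :=
  regular_of_foldl _ hs (hΔ.nodup h) h0 h1 k hk

/-- Transport of visibility of an edge node through a flip. -/
theorem transport {p : Tri H V × Seed V K} (hΔ : p.1.IsIdeal) (hs : p.2.Good) {f : K} {h x : H}
    (h0 : p.2.Regular f) (h1 : (fl p h).2.Regular f) (hx : x ≠ h) (hx' : x ≠ p.1.opp h)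
    (h3 : ((fl p h).2.mutate ((fl p h).1.edge x)).Regular f) :
    (p.2.mutate (p.1.edge x)).Regular f := by
  have e : (fl p h).1.edge x = p.1.edge x := edge_flip hx hx'
  rw [e] at h3
  exact regular_transport _ hs (hΔ.nodup h) h0 h1 _ (edge_not_mem hΔ hx hx') h3

/-- First case: two flips suffice. -/
theorem vis1 {p : Tri H V × Seed V K} (hΔ : p.1.IsIdeal) (hs : p.2.Good) {f : K} {x : H}
    (c : Conf p.1 x)
    (_ : p.1.opp (p.1.prv (p.1.opp x)) ≠ p.1.nxt (p.1.opp (p.1.nxt x)))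
    (r0 : p.2.Regular f) (r1 : (fl p (p.1.nxt x)).2.Regular f)
    (r2 : (fl (fl p (p.1.nxt x)) x).2.Regular f) :
    (p.2.mutate (p.1.edge x)).Regular f ∧ (p.2.mutate (p.1.edge (p.1.opp x))).Regular f := by
  have hf := c.flippable_nxt hΔ
  have hΔ' : (fl p (p.1.nxt x)).1.IsIdeal := hΔ.flip hf
  have hv := vis hΔ' (fl_good hs _) r1 r2
  have ho : (fl p (p.1.nxt x)).1.opp = p.1.opp := rfl
  refine ⟨?_, ?_⟩
  · apply transport hΔ hs r0 r1 (hΔ.nxt_ne x).symm (ne_opp_nxt hΔ x)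
    exact hv _ List.mem_cons_self
  · apply transport hΔ hs r0 r1 (hΔ.not_self_folded x)
      (fun h => hΔ.nxt_ne x (opp_inj hΔ h).symm)
    exact hv _ (List.mem_cons_of_mem _ List.mem_cons_self)

/-- Second case: the configuration after the auxiliary flip. -/
theorem case2 {Δ : Tri H V} (hΔ : Δ.IsIdeal) {x : H} (c : Conf Δ x)
    (h2 : Δ.opp (Δ.prv (Δ.opp x)) = Δ.nxt (Δ.opp (Δ.nxt x))) :
    Δ.Flippable (Δ.prv (Δ.opp (Δ.nxt x))) ∧
    Conf (Δ.flip (Δ.prv (Δ.opp (Δ.nxt x)))) x ∧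
    (Δ.flip (Δ.prv (Δ.opp (Δ.nxt x)))).nxt x = Δ.nxt x ∧
    (Δ.flip (Δ.prv (Δ.opp (Δ.nxt x)))).opp ((Δ.flip (Δ.prv (Δ.opp (Δ.nxt x)))).prv
      ((Δ.flip (Δ.prv (Δ.opp (Δ.nxt x)))).opp x)) ≠
      (Δ.flip (Δ.prv (Δ.opp (Δ.nxt x)))).nxt ((Δ.flip (Δ.prv (Δ.opp (Δ.nxt x)))).opp
        ((Δ.flip (Δ.prv (Δ.opp (Δ.nxt x)))).nxt x)) ∧
    x ≠ Δ.prv (Δ.opp (Δ.nxt x)) ∧ x ≠ Δ.opp (Δ.prv (Δ.opp (Δ.nxt x))) := by
  -- the third side of the outer triangle
  obtain ⟨q, hq⟩ : ∃ q, q = Δ.prv (Δ.opp (Δ.nxt x)) := ⟨_, rfl⟩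
  rw [← hq]
  have hnq : Δ.nxt q = Δ.opp (Δ.nxt x) := by rw [hq, nxt_prv hΔ]
  have hpq : Δ.prv q = Δ.nxt (Δ.opp (Δ.nxt x)) := by rw [hq, prv_prv hΔ]
  have hf : Δ.Flippable q := by
    refine ⟨fun h => ?_, fun h => ?_⟩
    · rw [hpq, ← h2, hΔ.opp_opp] at h
      have e1 : Δ.prv (Δ.opp x) = Δ.nxt (Δ.nxt (Δ.opp x)) := rfl
      rw [e1] at h
      have e2 := nxt_inj hΔ h
      rw [← c.e] at e2
      have e3 := opp_inj hΔ e2
      rw [hq] at e3
      have e4 := prv_inj hΔ e3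
      exact ne_opp_nxt hΔ x e4
    · rw [hnq] at h
      have e1 := opp_inj hΔ h
      have e2 := eq_nxt hΔ e1.symm
      have e3 := eq_opp hΔ e2.symm
      have e4 : Δ.nxt (Δ.nxt x) = Δ.prv x := rfl
      rw [e4, c.e] at e3
      rw [hq] at e3
      have e5 := eq_nxt hΔ e3.symm
      exact c.n e5
  have Q := hΔ.quad q
  rw [hnq, hpq] at Q
  have v := Q.vals
  obtain ⟨r, hr⟩ : ∃ r, r = Δ.nxt (Δ.opp q) := ⟨_, rfl⟩
  obtain ⟨t, ht⟩ : ∃ t, t = Δ.prv (Δ.opp q) := ⟨_, rfl⟩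
  rw [← hr, ← ht] at Q v
  have hxq : x ≠ q := by
    intro h
    rw [← h] at hnq
    exact hΔ.opp_ne _ hnq.symm
  have hxq' : x ≠ Δ.opp q := by
    intro h
    have e1 := eq_opp hΔ h
    rw [e1, ← c.e] at hnq
    exact prv_ne_nxt hΔ x (opp_inj hΔ hnq)
  have ox : ¬ InQ q (Δ.opp (Δ.nxt x)) (Δ.nxt (Δ.opp (Δ.nxt x))) (Δ.opp q) r t x := by
    rintro ((h | h | h) | (h | h | h))
    · rw [hr] at h
      have e2 := eq_opp hΔ (eq_prv hΔ h).symm
      rw [c.e] at e2
      rw [e2] at hnq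
      exact c.n hnq.symm
    · exact hxq' h
    · have e1 := eq_prv hΔ h
      exact hΔ.not_self_folded (Δ.nxt x) e1
    · rw [ht] at h
      have e2 := eq_opp hΔ (eq_nxt hΔ h).symm
      rw [← e2] at hnq
      exact hΔ.nxt_ne _ hnq
    · exact ne_opp_nxt hΔ x h
    · exact hxq h
  have oox : ¬ InQ q (Δ.opp (Δ.nxt x)) (Δ.nxt (Δ.opp (Δ.nxt x))) (Δ.opp q) r t (Δ.opp x) := by
    rintro ((h | h | h) | (h | h | h))
    · rw [hr] at h
      have e2 := eq_opp hΔ (eq_prv hΔ h).symm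
      rw [h2, ← hpq] at e2
      exact prv_ne hΔ _ e2.symm
    · exact hxq (opp_inj hΔ h)
    · exact c.n (eq_prv hΔ h)
    · rw [ht] at h
      have e1 := eq_nxt hΔ h
      rw [← c.e] at e1
      have e2 := opp_inj hΔ e1
      rw [e2, nxt_prv hΔ] at hnq
      exact ne_opp_nxt hΔ x hnq
    · exact hΔ.nxt_ne x (opp_inj hΔ h).symm
    · rw [← h, ← c.e] at hnq
      exact prv_ne_nxt hΔ x (opp_inj hΔ hnq)
  have ho : (Δ.flip q).opp = Δ.opp := rfl
  have hn1 : (Δ.flip q).nxt x = Δ.nxt x := v.else1 ox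
  have hn2 : (Δ.flip q).nxt (Δ.nxt x) = Δ.prv x := v.else1 (Q.out hΔ ox)
  have hn3 : (Δ.flip q).nxt (Δ.opp x) = Δ.nxt (Δ.opp x) := v.else1 oox
  have hn4 : (Δ.flip q).nxt (Δ.nxt (Δ.opp x)) = Δ.prv (Δ.opp x) := v.else1 (Q.out hΔ oox)
  have c' : Conf (Δ.flip q) x := by
    refine ⟨?_, ?_⟩
    · simp only [Tri.prv]
      rw [ho, hn1, hn2, hn3]
      exact c.e
    · simp only [Tri.prv]
      rw [ho, hn1, hn3, hn4]
      exact c.n
  have h1' : (Δ.flip q).opp ((Δ.flip q).prv ((Δ.flip q).opp x)) ≠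
      (Δ.flip q).nxt ((Δ.flip q).opp ((Δ.flip q).nxt x)) := by
    simp only [Tri.prv]
    rw [ho, hn3, hn4, hn1, v.va, h2]
    exact Q.hb.symm
  exact ⟨hf, c', hn1, h1', hxq, hxq'⟩

/-- Second case: three flips suffice. -/
theorem vis2 {p : Tri H V × Seed V K} (hΔ : p.1.IsIdeal) (hs : p.2.Good) {f : K} {x : H}
    (c : Conf p.1 x)
    (h : p.1.opp (p.1.prv (p.1.opp x)) = p.1.nxt (p.1.opp (p.1.nxt x)))
    (r0 : p.2.Regular f) (r1 : (fl p (p.1.prv (p.1.opp (p.1.nxt x)))).2.Regular f)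
    (r2 : (fl (fl p (p.1.prv (p.1.opp (p.1.nxt x)))) (p.1.nxt x)).2.Regular f)
    (r3 : (fl (fl (fl p (p.1.prv (p.1.opp (p.1.nxt x)))) (p.1.nxt x)) x).2.Regular f) :
    (p.2.mutate (p.1.edge x)).Regular f ∧ (p.2.mutate (p.1.edge (p.1.opp x))).Regular f := by
  obtain ⟨hf, c', hn, h1', hxq, hxq'⟩ := case2 hΔ c h
  obtain ⟨q, hq⟩ : ∃ q, q = p.1.prv (p.1.opp (p.1.nxt x)) := ⟨_, rfl⟩
  rw [← hq] at hf c' hn h1' hxq hxq' r1 r2 r3
  have hΔ' : (fl p q).1.IsIdeal := hΔ.flip hf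
  have hn' : (fl p q).1.nxt x = p.1.nxt x := hn
  have hv := vis1 (p := fl p q) hΔ' (fl_good hs _) c' h1' r1 (by rw [hn']; exact r2)
    (by rw [hn']; exact r3)
  refine ⟨?_, ?_⟩
  · exact transport hΔ hs r0 r1 hxq hxq' hv.1
  · apply transport hΔ hs r0 r1 _ _ hv.2
    · intro h
      exact hxq' (eq_opp hΔ h.symm)
    · intro h
      exact hxq (opp_inj hΔ h)

open Classical in
/-- the chart from which the edge `x` of a configuration is flipped -/
noncomputable def auxChart (p : Tri H V × Seed V K) (x : H) : Tri H V × Seed V K :=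
  if p.1.opp (p.1.prv (p.1.opp x)) = p.1.nxt (p.1.opp (p.1.nxt x)) then
    fl (fl p (p.1.prv (p.1.opp (p.1.nxt x)))) (p.1.nxt x) else fl p (p.1.nxt x)

open Classical in
/-- the chart attached to an oriented edge -/
noncomputable def edgeChart (p : Tri H V × Seed V K) (x : H) : Tri H V × Seed V K :=
  if p.1.Flippable x then fl p x else if Conf p.1 x then auxChart p x
  else if Conf p.1 (p.1.opp x) then fl (auxChart p (p.1.opp x)) (p.1.opp x) else p

theorem edgeChart_flippable {p : Tri H V × Seed V K} {x : H} (h : p.1.Flippable x) :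
    edgeChart p x = fl p x := by
  rw [edgeChart, if_pos h]

theorem edgeChart_conf {p : Tri H V × Seed V K} {x : H} (c : Conf p.1 x) :
    edgeChart p x = auxChart p x := by
  rw [edgeChart, if_neg (fun h => h.1 c.e), if_pos c]

theorem edgeChart_conf_opp {p : Tri H V × Seed V K} (hΔ : p.1.IsIdeal) {x : H}
    (c : Conf p.1 x) : edgeChart p (p.1.opp x) = fl (auxChart p x) x := by
  have h1 : ¬ p.1.Flippable (p.1.opp x) := by
    intro h
    have := h.2
    rw [hΔ.opp_opp] at this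
    exact this c.e
  have h2 : ¬ Conf p.1 (p.1.opp x) := by
    intro h
    have := h.n
    rw [← c.e, hΔ.opp_opp, hΔ.opp_opp] at this
    exact this rfl
  rw [edgeChart, if_neg h1, if_neg h2, hΔ.opp_opp, if_pos c]

theorem auxChart_reach {p : Tri H V × Seed V K} (hΔ : p.1.IsIdeal) {x : H} (c : Conf p.1 x) :
    FlipChart p.1 p.2 2 (auxChart p x).1 (auxChart p x).2 ∧ (auxChart p x).1.Flippable x := by
  unfold auxChart
  split_ifs with h
  · obtain ⟨hf, c', hn, h1', hxq, hxq'⟩ := case2 hΔ c h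
    have hΔ' : (fl p (p.1.prv (p.1.opp (p.1.nxt x)))).1.IsIdeal := hΔ.flip hf
    have hf2 := c'.flippable_nxt hΔ'
    have hf3 := c'.flippable_after hΔ' h1'
    have hn' : (fl p (p.1.prv (p.1.opp (p.1.nxt x)))).1.nxt x = p.1.nxt x := hn
    rw [hn'] at hf2 hf3
    exact ⟨((FlipChart.base (Δ₀ := p.1) (s₀ := p.2) 0).fl (p := p) (p₀ := p) hf).fl
      (p₀ := p) (p := fl p (p.1.prv (p.1.opp (p.1.nxt x)))) hf2, hf3⟩
  · refine ⟨((FlipChart.base (Δ₀ := p.1) (s₀ := p.2) 0).fl (p := p) (p₀ := p)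
      (c.flippable_nxt hΔ)).mono (by norm_num), c.flippable_after hΔ h⟩

theorem edgeChart_reach {p : Tri H V × Seed V K} (hΔ : p.1.IsIdeal) (x : H) :
    FlipChart p.1 p.2 3 (edgeChart p x).1 (edgeChart p x).2 := by
  unfold edgeChart
  split_ifs with h1 h2 h3
  · exact ((FlipChart.base (Δ₀ := p.1) (s₀ := p.2) 0).fl (p := p) (p₀ := p) h1).mono (by norm_num)
  · exact (auxChart_reach hΔ h2).1.mono (by norm_num)
  · have h := auxChart_reach hΔ h3
    exact h.1.fl (p₀ := p) h.2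
  · exact FlipChart.base 3

/-- the edge nodes of a configuration are visible -/
theorem vis_conf {p : Tri H V × Seed V K} (hΔ : p.1.IsIdeal) (hs : p.2.Good) {f : K} {x : H}
    (c : Conf p.1 x) (r0 : p.2.Regular f) (r : ∀ y, (edgeChart p y).2.Regular f) :
    ∀ k ∈ p.1.flipNodes x, (p.2.mutate k).Regular f := by
  have e1 : (auxChart p x).2.Regular f := by
    rw [← edgeChart_conf c]
    exact r x
  have e2 : (fl (auxChart p x) x).2.Regular f := by
    rw [← edgeChart_conf_opp hΔ c]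
    exact r _
  have h1 : (p.2.mutate (p.1.edge x)).Regular f ∧
      (p.2.mutate (p.1.edge (p.1.opp x))).Regular f := by
    by_cases h : p.1.opp (p.1.prv (p.1.opp x)) = p.1.nxt (p.1.opp (p.1.nxt x))
    · have e3 := r (p.1.prv (p.1.opp (p.1.nxt x)))
      rw [edgeChart_flippable (case2 hΔ c h).1] at e3
      rw [auxChart, if_pos h] at e1 e2
      exact vis2 hΔ hs c h r0 e3 e1 e2
    · rw [auxChart, if_neg h] at e1 e2
      exact vis1 hΔ hs c h r0 e1 e2
  have e4 := r (p.1.nxt x)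
  rw [edgeChart_flippable (c.flippable_nxt hΔ)] at e4
  have e5 := r (p.1.prv (p.1.opp x))
  rw [edgeChart_flippable (c.flippable_prv hΔ)] at e5
  have h2 := vis hΔ hs r0 e4 (p.1.face (p.1.nxt x)) (by simp [Tri.flipNodes])
  have h3 := vis hΔ hs r0 e5 (p.1.face (p.1.prv (p.1.opp x))) (by simp [Tri.flipNodes])
  rw [face_nxt hΔ] at h2
  rw [face_prv hΔ] at h3
  intro k hk
  simp only [Tri.flipNodes, List.mem_cons, List.not_mem_nil, or_false] at hk
  rcases hk with rfl | rfl | rfl | rfl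
  · exact h1.1
  · exact h1.2
  · exact h2
  · exact h3

theorem vis_all {p : Tri H V × Seed V K} (hΔ : p.1.IsIdeal) (hnp : p.1.NotPillow)
    (hs : p.2.Good) {f : K} (r0 : p.2.Regular f) (r : ∀ y, (edgeChart p y).2.Regular f) (v : V) :
    (p.2.mutate v).Regular f := by
  have key : ∀ x, ∀ k ∈ p.1.flipNodes x, (p.2.mutate k).Regular f := by
    intro x
    by_cases h1 : p.1.Flippable x
    · have e := r x
      rw [edgeChart_flippable h1] at e
      exact vis hΔ hs r0 e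
    · by_cases h2 : p.1.opp (p.1.prv x) = p.1.nxt (p.1.opp x)
      · exact vis_conf hΔ hs ⟨h2, fun h3 => hnp x ⟨h2, h3⟩⟩ r0 r
      · have h3 : p.1.opp (p.1.prv (p.1.opp x)) = p.1.nxt x := by
          by_contra h3
          exact h1 ⟨h2, h3⟩
        have h4 : p.1.opp (p.1.prv (p.1.opp x)) = p.1.nxt (p.1.opp (p.1.opp x)) := by
          rw [hΔ.opp_opp]
          exact h3
        have h6 := vis_conf hΔ hs (x := p.1.opp x)
          ⟨h4, fun h5 => hnp (p.1.opp x) ⟨h4, h5⟩⟩ r0 r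
        intro k hk
        apply h6 k
        simp only [Tri.flipNodes, List.mem_cons, List.not_mem_nil, or_false] at hk ⊢
        rw [hΔ.opp_opp]
        rcases hk with rfl | rfl | rfl | rfl
        · exact Or.inr (Or.inl rfl)
        · exact Or.inl rfl
        · exact Or.inr (Or.inr (Or.inr rfl))
        · exact Or.inr (Or.inr (Or.inl rfl))
  rcases hΔ.node v with ⟨x, rfl⟩ | ⟨x, rfl⟩
  · exact key x _ (by simp [Tri.flipNodes])
  · exact key x _ (by simp [Tri.flipNodes])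

/-- Regularity on the chart of the triangulation and on the charts attached to its oriented edges
implies regularity on all cluster charts. -/
theorem positive {Δ : Tri H V} (hΔ : Δ.IsIdeal) (hnp : Δ.NotPillow) {s : Seed V K}
    (hs : s.Good) {f : K} (r0 : s.Regular f) (r : ∀ y, (edgeChart (Δ, s) y).2.Regular f)
    (t : Seed V K) (ht : MutEquiv s t) : t.Regular f :=
  regular_all hs r0 (vis_all (p := (Δ, s)) hΔ hnp hs r0 r) t ht

/-- a chart obtained by flips is obtained by mutations -/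
theorem FlipChart.avoid {Δ₀ Δ : Tri H V} {s₀ s : Seed V K} {n : ℕ}
    (h : FlipChart Δ₀ s₀ n Δ s) (hΔ₀ : Δ₀.IsIdeal) : Δ.IsIdeal := by
  induction h with
  | base _ => exact hΔ₀
  | flip n Δ s h _ hf ih => exact ih.flip hf

end

end Pool.Agent.Y435.TC
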