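import Pool.Agent.Y435.TC.Charts

/-!
# A triangulation of the sphere with five punctures for which two flips do not suffice
-/

set_option linter.unusedSectionVars false

namespace Pool.Agent.Y435.TC

open Pool.Agent.H917R3.XC

/-- a function given by a table -/
def tab {n m : ℕ} [NeZero m] (l : List ℕ) (x : Fin n) : Fin m := Fin.ofNat m (l.getD x.val 0)

def T0 : Tri (Fin 18) (Fin 24) :=
  ⟨tab [1, 2, 0, 4, 5, 3, 7, 8, 6, 10, 11, 9, 13, 14, 12, 16, 17, 15],
   tab [3, 6, 4, 0, 2, 7, 1, 5, 17, 12, 15, 13, 9, 11, 16, 10, 14, 8],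
   tab [0, 1, 2, 3, 4, 5, 6, 7, 8, 9, 10, 11, 12, 13, 14, 15, 16, 17],
   tab [18, 18, 18, 19, 19, 19, 20, 20, 20, 21, 21, 21, 22, 22, 22, 23, 23, 23]⟩

def T1 : Tri (Fin 18) (Fin 24) :=
  ⟨tab [1, 2, 0, 4, 5, 3, 8, 15, 16, 10, 11, 9, 13, 14, 12, 17, 6, 7],
   tab [3, 6, 4, 0, 2, 7, 1, 5, 17, 12, 15, 13, 9, 11, 16, 10, 14, 8],
   tab [0, 1, 2, 3, 4, 5, 6, 7, 20, 9, 10, 11, 12, 13, 14, 15, 16, 23],
   tab [18, 18, 18, 19, 19, 19, 17, 8, 17, 21, 21, 21, 22, 22, 22, 8, 17, 8]⟩

def T2 : Tri (Fin 18) (Fin 24) :=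
  ⟨tab [8, 16, 1, 4, 5, 3, 0, 15, 6, 10, 11, 9, 13, 14, 12, 17, 2, 7],
   tab [3, 6, 4, 0, 2, 7, 1, 5, 17, 12, 15, 13, 9, 11, 16, 10, 14, 8],
   tab [0, 18, 2, 3, 4, 5, 17, 7, 20, 9, 10, 11, 12, 13, 14, 15, 16, 23],
   tab [1, 6, 6, 19, 19, 19, 1, 8, 1, 21, 21, 21, 22, 22, 22, 8, 6, 8]⟩

def T3 : Tri (Fin 18) (Fin 24) :=
  ⟨tab [8, 16, 1, 4, 5, 3, 0, 11, 6, 17, 7, 10, 13, 14, 12, 9, 2, 15],
   tab [3, 6, 4, 0, 2, 7, 1, 5, 17, 12, 15, 13, 9, 11, 16, 10, 14, 8],
   tab [0, 18, 2, 3, 4, 5, 17, 7, 20, 9, 21, 11, 12, 13, 14, 8, 16, 23],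
   tab [1, 6, 6, 19, 19, 19, 1, 15, 1, 10, 15, 15, 22, 22, 22, 10, 6, 10]⟩

def T4 : Tri (Fin 18) (Fin 24) :=
  ⟨tab [8, 16, 1, 4, 5, 3, 0, 11, 6, 14, 7, 10, 15, 12, 17, 13, 2, 9],
   tab [3, 6, 4, 0, 2, 7, 1, 5, 17, 12, 15, 13, 9, 11, 16, 10, 14, 8],
   tab [0, 18, 2, 3, 4, 5, 17, 7, 20, 10, 21, 11, 22, 13, 14, 8, 16, 23],
   tab [1, 6, 6, 19, 19, 19, 1, 15, 1, 12, 15, 15, 9, 9, 12, 9, 6, 12]⟩

def T5 : Tri (Fin 18) (Fin 24) :=
  ⟨tab [8, 17, 16, 4, 5, 3, 0, 11, 6, 2, 7, 10, 15, 12, 1, 13, 9, 14],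
   tab [3, 6, 4, 0, 2, 7, 1, 5, 17, 12, 15, 13, 9, 11, 16, 10, 14, 8],
   tab [0, 18, 2, 3, 4, 5, 17, 7, 20, 10, 21, 11, 22, 13, 12, 8, 6, 23],
   tab [1, 16, 14, 19, 19, 19, 1, 15, 1, 14, 15, 15, 9, 9, 16, 9, 14, 16]⟩

def toZero : List (List Bool) :=
  [[],
   [true, true],
   [true],
   [false],
   [false, true],
   [true, false],
   [false, true, true],
   [false, true, false],
   [true, false, true, true],
   [true, false, true, true, false, true, false, true, true],
   [false, true, true, false, true, false, true, true],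
   [false, true, false, true, false, true, false, true, true],
   [true, true, false, true, false, true, false, true, true],
   [true, false, true, false, true, false, true, true],
   [false, true, false, true, false, true, true],
   [true, true, false, true, false, true, true],
   [true, false, true, false, true, true],
   [false, true, false, true, true]]

def fromZero : List (List Bool) :=
  [[],
   [true],
   [true, true],
   [false],
   [false, true],
   [false, true, true],
   [true, false],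
   [true, false, true],
   [true, false, true, true],
   [true, false, true, true, false, true, false, true, true],
   [true, false, true, true, false, true, false],
   [true, false, true, true, false, true, false, true],
   [true, false, true, true, false, true, true, false, true],
   [true, false, true, true, false, true, false, true, false],
   [true, false, true, true, false, true, true, false],
   [true, false, true, true, false, true],
   [true, false, true, true, false, true, true],
   [true, false, true, true, false]]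

def cls (x : Fin 18) : Fin 5 := tab [0, 1, 2, 1, 0, 2, 2, 1, 2, 3, 4, 2, 4, 3, 2, 2, 4, 2] x

theorem tri_ext {H V : Type} {a b : Tri H V} (h1 : a.nxt = b.nxt) (h2 : a.opp = b.opp)
    (h3 : a.edge = b.edge) (h4 : a.face = b.face) : a = b := by
  cases a
  cases b
  simp only at h1 h2 h3 h4
  subst h1 h2 h3 h4
  rfl

theorem flip01 : T0.flip 8 = T1 :=
  tri_ext (by decide +kernel) (by decide +kernel) (by decide +kernel) (by decide +kernel)

theorem flip12 : T1.flip 1 = T2 :=
  tri_ext (by decide +kernel) (by decide +kernel) (by decide +kernel) (by decide +kernel)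

theorem flip23 : T2.flip 10 = T3 :=
  tri_ext (by decide +kernel) (by decide +kernel) (by decide +kernel) (by decide +kernel)

theorem flip34 : T3.flip 9 = T4 :=
  tri_ext (by decide +kernel) (by decide +kernel) (by decide +kernel) (by decide +kernel)

theorem flip45 : T4.flip 14 = T5 :=
  tri_ext (by decide +kernel) (by decide +kernel) (by decide +kernel) (by decide +kernel)

instance (Δ : Tri (Fin 18) (Fin 24)) (h : Fin 18) : Decidable (Δ.Flippable h) :=
  inferInstanceAs (Decidable (_ ≠ _ ∧ _ ≠ _))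

/-- moving along a word -/
def walk (w : List Bool) (x : Fin 18) : Fin 18 :=
  w.foldl (fun z b => if b then T0.nxt z else T0.opp z) x

theorem walk_mem {S : Set (Fin 18)} (hn : ∀ x ∈ S, T0.nxt x ∈ S) (ho : ∀ x ∈ S, T0.opp x ∈ S)
    (w : List Bool) : ∀ x ∈ S, walk w x ∈ S := by
  induction w with
  | nil => exact fun x hx => hx
  | cons b w ih =>
    intro x hx
    have h : walk (b :: w) x = walk w (if b then T0.nxt x else T0.opp x) := rfl
    rw [h]
    apply ih
    split_ifs
    · exact hn x hx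
    · exact ho x hx

theorem walk_to : ∀ x : Fin 18, walk (toZero.getD x.val []) x = 0 := by decide +kernel

theorem walk_from : ∀ y : Fin 18, walk (fromZero.getD y.val []) 0 = y := by decide +kernel

theorem T0_ideal : T0.IsIdeal := by
  refine ⟨⟨0⟩, by decide +kernel, by decide +kernel, by decide +kernel, by decide +kernel, ?_,
    by decide +kernel, by decide +kernel, ?_, by decide +kernel, by decide +kernel⟩
  · rintro S ⟨x, hx⟩ hn ho
    have h0 : (0 : Fin 18) ∈ S := by
      rw [← walk_to x]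
      exact walk_mem hn ho _ x hx
    apply Set.eq_univ_of_forall
    intro y
    rw [← walk_from y]
    exact walk_mem hn ho _ 0 h0
  · show ∀ x y, T0.face x = T0.face y ↔ y = x ∨ y = T0.nxt x ∨ y = T0.nxt (T0.nxt x)
    decide +kernel

/-- the rotation around the starting point -/
def rot (x : Fin 18) : Fin 18 := T0.opp (T0.nxt (T0.nxt x))

theorem cls_rot : ∀ x, cls (rot x) = cls x := by decide +kernel

theorem cls_eq : ∀ x y, cls x = cls y → ∃ k : Fin 8, rot^[k.val] x = y := by decide +kernel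

theorem cls_surj : Function.Surjective cls := by
  have h : ∀ c : Fin 5, ∃ x : Fin 18, cls x = c := by decide +kernel
  exact h

theorem T0_type : T0.HasType 0 5 := by
  refine ⟨?_, by norm_num⟩
  unfold Tri.punctures
  let φ : (Quot fun x y : Fin 18 => y = T0.opp (T0.prv x)) → Fin 5 :=
    Quot.lift cls (fun x y h => by rw [h]; exact (cls_rot x).symm)
  have hit : ∀ (k : ℕ) (x : Fin 18), Quot.mk (fun x y : Fin 18 => y = T0.opp (T0.prv x)) (rot^[k] x) =
      Quot.mk (fun x y : Fin 18 => y = T0.opp (T0.prv x)) x := by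
    intro k
    induction k with
    | zero => exact fun _ => rfl
    | succ k ih =>
      intro x
      rw [Function.iterate_succ_apply, ih]
      exact (Quot.sound (r := fun x y : Fin 18 => y = T0.opp (T0.prv x)) rfl).symm
  have hφ : Function.Bijective φ := by
    refine ⟨?_, ?_⟩
    · intro a b hab
      induction a using Quot.ind with
      | mk x =>
        induction b using Quot.ind with
        | mk y =>
          obtain ⟨k, hk⟩ := cls_eq x y hab
          rw [← hk]
          exact (hit k x).symm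
    · intro c
      obtain ⟨x, hx⟩ := cls_surj c
      exact ⟨Quot.mk _ x, hx⟩
  rw [Nat.card_congr (Equiv.ofBijective φ hφ)]
  simp

/-- the exponents of the monomial -/
def expo : Fin 24 → ℤ := fun v =>
  if v = 0 ∨ v = 2 ∨ v = 3 ∨ v = 4 ∨ v = 6 ∨ v = 8 ∨ v = 11 ∨ v = 12 then 1 else 0

theorem expo_b : ∀ j : Fin 24, ∑ i, expo i * T5.exchange i j =
    if j = 0 then -1 else if j = 6 then 1 else 0 := by decide +kernel

/-- the seed after the five flips -/
noncomputable def s5 : Seed (Fin 24) (FractionRing (MvPolynomial (Fin 24) ℂ)) :=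
  (T4.flipNodes 14).foldl Seed.mutate ((T3.flipNodes 9).foldl Seed.mutate
    ((T2.flipNodes 10).foldl Seed.mutate ((T1.flipNodes 1).foldl Seed.mutate
      ((T0.flipNodes 8).foldl Seed.mutate T0.seed))))

theorem s5_chart : TriChart T0 T0.seed T5 s5 := by
  have h0 : TriChart T0 T0.seed T0 T0.seed := TriChart.base
  have h1 := TriChart.flip _ _ 8 h0 (by decide +kernel)
  rw [flip01] at h1
  have h2 := TriChart.flip _ _ 1 h1 (by decide +kernel)
  rw [flip12] at h2
  have h3 := TriChart.flip _ _ 10 h2 (by decide +kernel)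
  rw [flip23] at h3
  have h4 := TriChart.flip _ _ 9 h3 (by decide +kernel)
  rw [flip34] at h4
  have h5 := TriChart.flip _ _ 14 h4 (by decide +kernel)
  rw [flip45] at h5
  exact h5

theorem s5_avoid : Avoid 0 T0.seed s5 :=
  (((((Avoid.refl.foldl (T0.flipNodes 8) (by decide +kernel)).foldl (T1.flipNodes 1)
    (by decide +kernel)).foldl (T2.flipNodes 10) (by decide +kernel)).foldl (T3.flipNodes 9)
    (by decide +kernel)).foldl (T4.flipNodes 14) (by decide +kernel))

theorem s5_b (j : Fin 24) : s5.b j expo = if j = 0 then -1 else if j = 6 then 1 else 0 := by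
  have h : s5.ε = T5.exchange := (TriChart.correct T0_ideal rfl s5_chart).2
  rw [← expo_b j, ← h]
  rfl

theorem avoid1 : ∀ h : Fin 18, T0.Flippable h → (0 : Fin 24) ∉ T0.flipNodes h := by
  decide +kernel

theorem avoid2 : ∀ h g : Fin 18, T0.Flippable h → (T0.flip h).Flippable g →
    (0 : Fin 24) ∉ (T0.flip h).flipNodes g := by
  decide +kernel

theorem ball_avoid {Δ : Tri (Fin 18) (Fin 24)}
    {s : Seed (Fin 24) (FractionRing (MvPolynomial (Fin 24) ℂ))}
    (h : FlipChart T0 T0.seed 2 Δ s) : Avoid 0 T0.seed s := by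
  cases h with
  | base _ => exact Avoid.refl
  | flip _ Δ₁ s₁ g h1 hg =>
    cases h1 with
    | base _ => exact Avoid.refl.foldl _ (avoid1 g hg)
    | flip _ Δ₂ s₂ g' h2 hg' =>
      cases h2 with
      | base _ => exact (Avoid.refl.foldl _ (avoid1 g' hg')).foldl _ (avoid2 g' g hg' hg)

/-- Two flips do not suffice. -/
theorem sharp : ∃ f : FractionRing (MvPolynomial (Fin 24) ℂ),
    (∀ Δ' s', FlipChart T0 T0.seed 2 Δ' s' → s'.Regular f) ∧
    ∃ t, MutEquiv T0.seed t ∧ ¬ t.Regular f := by
  have h := mon_frozen (seed_good T0_ideal) s5_avoid (m := expo)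
    (fun j hj => by rw [s5_b, if_neg hj]; split_ifs <;> norm_num)
    (by rw [s5_b, if_pos rfl]; norm_num)
  exact ⟨_, fun Δ' s' h' => h.1 s' (ball_avoid h'), h.2⟩

end Pool.Agent.Y435.TC
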