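import Pool.Agent.H917R3.Sphere
import Pool.Agent.H917R3.FlipExchange

/-!
# Mutations avoiding a node, and monomials
-/

set_option linter.unusedSectionVars false

namespace Pool.Agent.Y435.TC

open Pool.Agent.H917R3.XC

section

variable {V : Type} [Fintype V] [DecidableEq V] {K : Type} [Field K] [Algebra ℂ K]

/-- Seeds obtained by sequences of mutations at nodes different from `k`. -/
inductive Avoid (k : V) (s : Seed V K) : Seed V K → Prop
  | refl : Avoid k s s
  | step (t : Seed V K) (j : V) : Avoid k s t → j ≠ k → Avoid k s (t.mutate j)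

theorem Avoid.good {k : V} {s t : Seed V K} (h : Avoid k s t) (hs : s.Good) : t.Good := by
  induction h with
  | refl => exact hs
  | step t j _ _ ih => exact ih.mutate j

theorem Avoid.trans {k : V} {s t u : Seed V K} (h : Avoid k s t) (h' : Avoid k t u) :
    Avoid k s u := by
  induction h' with
  | refl => exact h
  | step t j _ hj ih => exact ih.step _ _ hj

theorem Avoid.symm {k : V} {s t : Seed V K} (h : Avoid k s t) (hs : s.Good) : Avoid k t s := by
  induction h with
  | refl => exact Avoid.refl
  | step t j h hj ih =>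
    have h1 : Avoid k (t.mutate j) t := by
      have h2 : Avoid k (t.mutate j) ((t.mutate j).mutate j) := Avoid.step _ _ Avoid.refl hj
      rwa [(h.good hs).mutate_mutate] at h2
    exact h1.trans ih

theorem Avoid.foldl {k : V} (ks : List V) : ∀ {s t : Seed V K}, Avoid k s t → k ∉ ks →
    Avoid k s (ks.foldl Seed.mutate t) := by
  induction ks with
  | nil => exact fun h _ => h
  | cons l ks ih =>
    intro s t h hk
    rw [List.foldl_cons]
    exact ih (h.step _ _ fun h => hk (h ▸ List.mem_cons_self))
      (fun h => hk (List.mem_cons_of_mem _ h))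

theorem Avoid.mutEquiv {k : V} {s t : Seed V K} (h : Avoid k s t) : MutEquiv s t := by
  induction h with
  | refl => exact MutEquiv.refl
  | step t j _ _ ih => exact ih.step _ _

/-- Regularity on a chart and on the adjacent charts in the directions different from `k` implies
regularity on all charts obtained without mutations at `k`. -/
theorem frozen {s : Seed V K} (hs : s.Good) {f : K} {k : V} (h0 : s.Regular f)
    (h1 : ∀ j, j ≠ k → (s.mutate j).Regular f) (t : Seed V K) (ht : Avoid k s t) :
    t.Regular f := by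
  have key : t.Good ∧ t.Regular f ∧ ∀ j, j ≠ k → (t.mutate j).Regular f := by
    induction ht with
    | refl => exact ⟨hs, h0, h1⟩
    | step t i _ hi ih =>
      obtain ⟨hg, hr, ha⟩ := ih
      refine ⟨hg.mutate i, ha i hi, fun j hj => ?_⟩
      by_cases hji : j = i
      · subst hji
        rw [hg.mutate_mutate]
        exact hr
      · apply square (hg.mutate i) hji (ha i hi)
        · rw [hg.mutate_mutate]
          exact hr
        · rw [hg.mutate_mutate]
          exact ha j hj
  exact key.2.1

/-- the order of a monomial in a direction -/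
theorem ord_mon {s : Seed V K} (hs : s.Good) (j : V) (m : V → ℤ) :
    (hs.mutate j).chart.Ord j (mon s.X m) (s.b j m) := by
  have h := Chart.Ord.prod (c := (hs.mutate j).chart) (j := j) Finset.univ (fun i => s.X i ^ m i)
    (fun i => s.ε i j * m i) (fun i _ => (ord_X hs j i).zpow (m i))
  have h3 : ∑ i, s.ε i j * m i = s.b j m := Finset.sum_congr rfl fun i _ => mul_comm _ _
  rw [h3] at h
  exact h

theorem mon_regular {s : Seed V K} (hs : s.Good) (m : V → ℤ) : s.Regular (mon s.X m) :=
  (hs.regular_iff _).mpr ⟨xm m, ev_xm hs.ne m⟩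

theorem mon_regular_mutate {s : Seed V K} (hs : s.Good) {j : V} {m : V → ℤ} (h : 0 ≤ s.b j m) :
    (s.mutate j).Regular (mon s.X m) :=
  regular_of_mem_loc hs j (mon_regular hs m) ((ord_mon hs j m).mem h)

theorem mon_not_regular {s : Seed V K} (hs : s.Good) {j : V} {m : V → ℤ} (h : s.b j m < 0) :
    ¬ (s.mutate j).Regular (mon s.X m) := by
  intro hr
  obtain ⟨q, hq⟩ := ((hs.mutate j).regular_iff _).mp hr
  obtain ⟨w, hw, hw'⟩ := ord_mon hs j m
  have h1 : mon s.X m ∈ (hs.mutate j).chart.Loc j := by
    rw [← hq]
    exact (hs.mutate j).chart.ev_mem_Loc j q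
  obtain ⟨n, hn⟩ : ∃ n : ℕ, s.b j m = -(n + 1 : ℕ) := ⟨(-(s.b j m) - 1).toNat, by omega⟩
  apply (hs.mutate j).chart.u_not_unit j
  have hu := (hs.mutate j).chart.u_ne_zero j
  have h2 : (1 + (hs.mutate j).chart.X j)⁻¹ =
      mon s.X m * (w⁻¹ * (1 + (hs.mutate j).chart.X j) ^ n) := by
    rw [hw', hn, zpow_neg, zpow_natCast, pow_succ]
    have := hw.1
    field_simp
  rw [h2]
  exact ((hs.mutate j).chart.Loc j).mul_mem h1 (((hs.mutate j).chart.Loc j).mul_mem hw.2.2
    (((hs.mutate j).chart.Loc j).pow_mem ((hs.mutate j).chart.u_mem j) n))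

/-- A monomial whose order is negative only in the direction `k` is regular on all charts obtained
without mutations at `k`, but not on all cluster charts. -/
theorem mon_frozen {s₀ s : Seed V K} (hs₀ : s₀.Good) {k : V} (h : Avoid k s₀ s) {m : V → ℤ}
    (h1 : ∀ j, j ≠ k → 0 ≤ s.b j m) (h2 : s.b k m < 0) :
    (∀ t, Avoid k s₀ t → t.Regular (mon s.X m)) ∧
      ∃ t, MutEquiv s₀ t ∧ ¬ t.Regular (mon s.X m) := by
  have hs := h.good hs₀
  refine ⟨fun t ht => frozen hs (mon_regular hs m) (fun j hj => mon_regular_mutate hs (h1 j hj)) t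
    ((h.symm hs₀).trans ht), s.mutate k, h.mutEquiv.step _ _, mon_not_regular hs h2⟩

end

end Pool.Agent.Y435.TC
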